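import Pool.Agent.Lib.helper5.BaSub

open Set TopologicalSpace

namespace Pool.Agent.Results.MP_828627_an.BidualPlichko

/-- The subspace `N` of `X*` is norming. -/
def Norming {X : Type} [NormedAddCommGroup X] [NormedSpace ℝ X]
    (N : Submodule ℝ (X →L[ℝ] ℝ)) : Prop :=
  ∃ c : ℝ, 0 < c ∧ ∀ x : X, c * ‖x‖ ≤ sSup {r | ∃ f ∈ N, ‖f‖ ≤ 1 ∧ r = |f x|}

/-- `X` is a Plichko space. -/
def Plichko (X : Type) [NormedAddCommGroup X] [NormedSpace ℝ X] : Prop :=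
  ∃ (S : Set X) (N : Submodule ℝ (X →L[ℝ] ℝ)),
    Dense ((Submodule.span ℝ S : Submodule ℝ X) : Set X) ∧ Norming N ∧
    ∀ f ∈ N, {s ∈ S | f s ≠ 0}.Countable

/-- The bidual of `X` is a Plichko space. -/
def Bidual (X : Type) [NormedAddCommGroup X] [NormedSpace ℝ X] : Prop :=
  Plichko ((X →L[ℝ] ℝ) →L[ℝ] ℝ)

lemma iff {X : Type} [NormedAddCommGroup X] [NormedSpace ℝ X] : Plichko X ↔ H5B.Pl X := by
  have n0 := (norm_zero (E := X →L[ℝ] ℝ)).trans_le zero_le_one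
  refine ⟨fun ⟨S, N, h1, ⟨c, c0, h2⟩, h3⟩ => ⟨S, h1, c / 2, half_pos c0, fun x => ?_⟩,
    fun ⟨S, h1, c, c0, h2⟩ => ⟨S, ⟨⟨⟨{f | {s ∈ S | f s ≠ 0}.Countable}, fun {f g} h1 h2 =>
      (h1.union h2).mono fun m hm => by_contra fun n => hm.2 ?_⟩, by simp⟩, fun a f h =>
        h.mono fun m hm => And.intro hm.1 fun k => hm.2 (by rw [smul_apply, k, smul_zero])⟩, h1,
          ⟨c, c0, fun x => ?_⟩, fun _ => id⟩⟩
  · by_cases e : x = 0
    · exact ⟨0, by simp, n0, by simp [e]⟩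
    obtain ⟨_, ⟨f, f1, f2, rfl⟩, f3⟩ := exists_lt_of_lt_csSup (by exact ⟨_, 0, zero_mem _, n0, rfl⟩)
      ((mul_lt_mul_of_pos_right (half_lt_self c0) (norm_pos_iff.2 e)).trans_le (h2 x))
    exact ⟨f, h3 f f1, f2, f3.le⟩
  · rw [add_apply, show f m = 0 from by_contra fun k => n (Or.inl (And.intro hm.1 k)),
      show g m = 0 from by_contra fun k => n (Or.inr (And.intro hm.1 k)), add_zero]
  · obtain ⟨f, f1, f2, f3⟩ := h2 x
    refine f3.trans (le_csSup ⟨‖x‖, ?_⟩ ⟨f, f1, f2, rfl⟩)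
    rintro _ ⟨g, -, k, rfl⟩
    exact (g.le_opNorm x).trans (mul_le_of_le_one_left (norm_nonneg _) k)

/-- There is a real Banach space which is not Plichko although its bidual is Plichko. -/
theorem result : ∃ (X : Type) (_ : NormedAddCommGroup X) (_ : NormedSpace ℝ X),
    CompleteSpace X ∧ Bidual X ∧ ¬ Plichko X := by
  obtain ⟨X, _, _, _, h1, s, s1, s2⟩ := H5B.main
  refine ⟨X, _, _, inferInstance, iff.2 h1, fun h => ?_⟩
  obtain ⟨P, p1, p2, -⟩ := (iff.1 h).proj s1.isSeparable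
  exact s2 P p1 p2

end Pool.Agent.Results.MP_828627_an.BidualPlichko
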